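import Pool.Agent.W351.ER.Lay

/-!
Digit facts on al and gg.
-/

set_option autoImplicit false

namespace Pool.Agent.W351.ER

open Finset Pool.Agent.W477.ER

theorem al_sum (q a e n : ℕ) : al q a e n = ∑ k ∈ range n, if a + ds q k ≤ e then 1 else 0 := by
  unfold al
  rw [card_filter]

theorem al_add (q a e n m : ℕ) : al q a e (n + m) =
    al q a e n + ∑ k ∈ range m, if a + ds q (n + k) ≤ e then 1 else 0 := by
  rw [al_sum, al_sum, sum_range_add]

theorem ds_digit (q n c t : ℕ) (hq : 2 ≤ q) (hc : c < q) (ht : t < q ^ n) :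
    ds q (c * q ^ n + t) = c + ds q t := by
  rw [Nat.mul_comm, ds_split q n c t hq ht, ds_small q c hc]

theorem al_step (q a e n c x : ℕ) (hq : 2 ≤ q) (hc : c < q) (hx : x ≤ q ^ n) :
    al q a e (c * q ^ n + x) = al q a e (c * q ^ n) + al q (a + c) e x := by
  rw [al_add, al_sum q (a + c)]
  congr 1
  apply sum_congr rfl
  intro k hk
  rw [mem_range] at hk
  rw [ds_digit q n c k hq hc (by omega), Nat.add_assoc]

theorem al_blocks (q a e n c : ℕ) (hq : 2 ≤ q) (hc : c ≤ q) :
    al q a e (c * q ^ n) = ∑ i ∈ range c, al q (a + i) e (q ^ n) := by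
  induction c with
  | zero => simp [al]
  | succ c ih =>
    rw [sum_range_succ, ← ih (by omega), Nat.succ_mul, al_step q a e n c (q ^ n) hq (by omega) le_rfl]

theorem alSplit : AlSplit := by
  intro q a e n c x hq hc hx
  rw [al_step q a e n c x hq hc hx, al_blocks q a e n c hq hc.le]

theorem alPow : AlPow := by
  intro q a e n hq he
  have h1 : q ^ (n + 1) = q * q ^ n := by ring
  rw [h1, al_blocks q a e n q hq le_rfl, al_blocks q (a + 1) e n q hq le_rfl]
  have h2 : (∑ i ∈ range (q + 1), al q (a + i) e (q ^ n)) =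
      ∑ i ∈ range q, al q (a + i) e (q ^ n) := by
    rw [sum_range_succ, alBasic.2.2.2.1 q (a + q) e _ he, Nat.add_zero]
  rw [← h2, sum_range_succ', Nat.add_zero, Nat.add_comm]
  congr 1
  apply sum_congr rfl
  intro i _
  congr 1
  omega

theorem alSat : AlSat := by
  intro q a e n x hq hae he hx1 hx2
  obtain ⟨m, hm⟩ := Nat.exists_eq_add_of_le hx2
  rw [hm, al_add]
  symm
  rw [Nat.add_eq_left]
  apply sum_eq_zero
  intro k hk
  rw [mem_range] at hk
  rw [if_neg]
  intro hcon
  have hpos : 0 < q ^ n := by positivity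
  have h1 : x + k < q * q ^ n := by
    have : q ^ (n + 1) = q * q ^ n := by ring
    omega
  have h2 : (x + k) / q ^ n < q := by
    rw [Nat.div_lt_iff_lt_mul hpos]
    exact h1
  have h3 : e - a ≤ (x + k) / q ^ n := by
    rw [Nat.le_div_iff_mul_le hpos]
    omega
  have h4 : ds q (x + k) = (x + k) / q ^ n + ds q ((x + k) % q ^ n) := by
    conv_lhs => rw [← Nat.div_add_mod (x + k) (q ^ n), Nat.mul_comm]
    exact ds_digit q n _ _ hq h2 (Nat.mod_lt _ hpos)
  have h5 : (x + k) / q ^ n = e - a := by omega
  have h6 : (x + k) % q ^ n ≠ 0 := by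
    intro h7
    have h8 := Nat.div_add_mod (x + k) (q ^ n)
    rw [h5, h7, Nat.mul_comm] at h8
    omega
  have h7 := ds_pos q _ h6
  omega

theorem alShift : AlShift := by
  intro q a e n z hq hz
  rw [al_add, al_sum q (a + 1)]
  congr 1
  apply sum_congr rfl
  intro k hk
  rw [mem_range] at hk
  have hpos : 0 < q ^ n := by positivity
  have h2 : k / q ^ n < q - 1 := by
    rw [Nat.div_lt_iff_lt_mul hpos]
    omega
  have h3 : ds q k = k / q ^ n + ds q (k % q ^ n) := by
    conv_lhs => rw [← Nat.div_add_mod k (q ^ n), Nat.mul_comm]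
    exact ds_digit q n _ _ hq (by omega) (Nat.mod_lt _ hpos)
  have h4 : ds q (q ^ n + k) = (k / q ^ n + 1) + ds q (k % q ^ n) := by
    have h5 : q ^ n + k = (k / q ^ n + 1) * q ^ n + k % q ^ n := by
      have h8 := Nat.div_add_mod k (q ^ n)
      rw [Nat.mul_comm] at h8
      rw [Nat.succ_mul]
      omega
    rw [h5]
    rw [ds_digit q n _ _ hq (by omega) (Nat.mod_lt _ hpos)]
  rw [h3, h4]
  congr 1
  apply propext
  constructor <;> intro h <;> omega

theorem gg_long (q x N : ℕ) (hq : 2 ≤ q) (h : x ≤ N) :
    ∑ k ∈ range N, x / q ^ (k + 1) = gg q x := by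
  unfold gg
  symm
  apply sum_subset (range_mono h)
  intro k _ hk
  rw [mem_range, not_lt] at hk
  apply Nat.div_eq_of_lt
  calc x ≤ k := hk
    _ < q ^ k := Nat.lt_pow_self (by omega)
    _ ≤ q ^ (k + 1) := Nat.pow_le_pow_right (by omega) (by omega)

theorem gg_rec (q x : ℕ) (hq : 2 ≤ q) : gg q x = x / q + gg q (x / q) := by
  rcases Nat.eq_zero_or_pos x with h | h
  · subst h
    simp [gg]
  · obtain ⟨m, rfl⟩ : ∃ m, x = m + 1 := ⟨x - 1, by omega⟩
    have h1 : (m + 1) / q ≤ m := by
      have : (m + 1) / q < m + 1 := Nat.div_lt_self (by omega) (by omega)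
      omega
    rw [← gg_long q ((m + 1) / q) m hq h1]
    unfold gg
    rw [sum_range_succ', Nat.add_comm]
    congr 1
    · rw [Nat.zero_add, pow_one]
    · apply sum_congr rfl
      intro k _
      rw [Nat.div_div_eq_div_mul]
      congr 1
      ring

theorem ds_rec (q x : ℕ) (hq : 2 ≤ q) : ds q x = ds q (x / q) + x % q := by
  have h1 := ds_split q 1 (x / q) (x % q) hq (by rw [pow_one]; exact Nat.mod_lt _ (by omega))
  rw [pow_one, Nat.div_add_mod] at h1
  rw [h1, ds_small q (x % q) (Nat.mod_lt _ (by omega))]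

theorem gg_eq (q : ℕ) (hq : 2 ≤ q) : ∀ x : ℕ, (q - 1) * gg q x + ds q x = x := by
  intro x
  induction x using Nat.strong_induction_on with
  | _ x ih =>
    rcases Nat.eq_zero_or_pos x with h | h
    · subst h
      simp [gg, ds]
    · have h1 := ih (x / q) (Nat.div_lt_self h (by omega))
      rw [gg_rec q x hq, ds_rec q x hq]
      have h2 := Nat.div_add_mod x q
      obtain ⟨p, rfl⟩ : ∃ p, q = p + 1 := ⟨q - 1, by omega⟩
      rw [Nat.add_sub_cancel] at h1 ⊢
      rw [Nat.mul_add]
      rw [Nat.succ_mul] at h2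
      omega

theorem ggBasic : GgBasic := by
  refine ⟨fun q x hq => gg_eq q hq x, fun q x hq => gg_rec q x hq, ?_, ?_, ?_⟩
  · intro q n hq
    induction n with
    | zero =>
      simp only [pow_zero, pp, range_zero, sum_empty]
      rw [gg_rec q 1 hq, Nat.div_eq_of_lt (by omega)]
      simp [gg]
    | succ n ih =>
      rw [gg_rec q _ hq]
      have h1 : q ^ (n + 1) / q = q ^ n := by
        rw [pow_succ]
        exact Nat.mul_div_cancel _ (by omega)
      rw [h1, ih]
      unfold pp
      rw [sum_range_succ, Nat.add_comm]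
  · intro q x y hq
    rw [← gg_long q x (x + y) hq (by omega), ← gg_long q y (x + y) hq (by omega),
      ← sum_add_distrib]
    unfold gg
    apply sum_le_sum
    intro k _
    exact Nat.div_add_div_le_add_div
  · intro q x y hq hxy
    rw [← gg_long q x y hq hxy]
    unfold gg
    apply sum_le_sum
    intro k _
    exact Nat.div_le_div_right hxy

theorem alDrop : AlDrop := by
  intro q a e x hq he
  by_cases hae : e < a
  · rw [alBasic.2.2.2.1 q a e _ hae, alBasic.2.2.2.1 q (a + 1) e _ (by omega),
      alBasic.2.2.2.1 q a e _ hae]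
  have hae' : a ≤ e := by omega
  have h1 : al q a e x = al q (a + 1) e x + ((range x).filter (fun k => a + ds q k = e)).card := by
    unfold al
    rw [← card_union_of_disjoint]
    · congr 1
      ext k
      simp only [mem_filter, mem_union, mem_range]
      constructor
      · rintro ⟨h1, h2⟩
        by_cases h3 : a + ds q k = e
        · right
          exact ⟨h1, h3⟩
        · left
          exact ⟨h1, by omega⟩
      · rintro (⟨h1, h2⟩ | ⟨h1, h2⟩)
        · exact ⟨h1, by omega⟩
        · exact ⟨h1, by omega⟩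
    · rw [disjoint_left]
      intro k hk1 hk2
      rw [mem_filter] at hk1 hk2
      omega
  rw [h1]
  have h2 : al q a e (x / q) ≤ ((range x).filter (fun k => a + ds q k = e)).card := by
    unfold al
    apply card_le_card_of_injOn (fun u => q * u + (e - a - ds q u))
    · intro u hu
      rw [Finset.mem_coe, mem_filter, mem_range] at hu
      rw [Finset.mem_coe, mem_filter, mem_range]
      have h3 : e - a - ds q u < q := by omega
      refine ⟨?_, ?_⟩
      · calc q * u + (e - a - ds q u) < q * u + q := by omega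
          _ = q * (u + 1) := by ring
          _ ≤ q * (x / q) := Nat.mul_le_mul_left _ hu.1
          _ ≤ x := Nat.mul_div_le x q
      · have h4 := ds_split q 1 u (e - a - ds q u) hq (by rw [pow_one]; exact h3)
        rw [pow_one] at h4
        show a + ds q (q * u + (e - a - ds q u)) = e
        rw [h4, ds_small q _ h3]
        omega
    · intro u hu v hv huv
      rw [Finset.mem_coe, mem_filter, mem_range] at hu hv
      have h3 : e - a - ds q u < q := by omega
      have h4 : e - a - ds q v < q := by omega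
      have h5 : (q * u + (e - a - ds q u)) / q = u := by
        rw [Nat.mul_add_div (by omega), Nat.div_eq_of_lt h3, Nat.add_zero]
      have h6 : (q * v + (e - a - ds q v)) / q = v := by
        rw [Nat.mul_add_div (by omega), Nat.div_eq_of_lt h4, Nat.add_zero]
      rw [← h5, ← h6]
      exact congrArg (fun z => z / q) huv
  omega

end Pool.Agent.W351.ER
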