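import Pool.Agent.W351.ER.Al

/-!
The inequality AlW.
-/

set_option autoImplicit false

namespace Pool.Agent.W351.ER

open Finset Pool.Agent.W477.ER

theorem alW_of (hb : AlBasic) (h2 : AlL2) (hs : AlSub) (hd : AlDrop) (hg : GgBasic) : AlW := by
  intro q a e s b hq he hsb
  obtain ⟨b1, b2, b3, b4, b5, b6, b7⟩ := hb
  obtain ⟨g1, g2, g3, g4, g5⟩ := hg
  have hz : ∀ s : ℕ, gg q s ≤ (s + gg q s) / q := by
    intro s
    rw [Nat.le_div_iff_mul_le (by omega)]
    have h1 := g1 q s hq
    obtain ⟨p, rfl⟩ : ∃ p, q = p + 1 := ⟨q - 1, by omega⟩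
    rw [Nat.add_sub_cancel] at h1
    have h3 : gg (p + 1) s * (p + 1) = p * gg (p + 1) s + gg (p + 1) s := by ring
    omega
  have claim : ∀ s : ℕ, al q (a + 1) e (s + gg q s) ≤ al q a e s := by
    intro s
    have h3 := hd q a e (s + gg q s) hq he
    have h4 := b1 q a e _ _ (hz s)
    have h5 := hs q a e s (gg q s) hq
    omega
  have hgs : gg q s ≤ s := by
    have h1 := g1 q s hq
    have h3 : 1 * gg q s ≤ (q - 1) * gg q s := Nat.mul_le_mul_right _ (by omega)
    omega
  rcases le_or_gt (s + gg q s) b with hc | hc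
  · have h3 := h2 q a e b (s + gg q s) hq hc
    have h4 := claim s
    have h5 : s + b + gg q s = b + (s + gg q s) := by ring
    rw [h5]
    omega
  · have h3 := h2 q a e (s + gg q s) b hq hc.le
    have h4 := hd q a e b hq he
    have h5 := h2 q a e s (gg q s) hq hgs
    have h6 := claim (s / q)
    rw [← g2 q s hq] at h6
    have h7 := b1 q a e _ _ (Nat.div_le_div_right (c := q) hsb)
    have h8 : s + b + gg q s = s + gg q s + b := by ring
    rw [h8]
    omega

end Pool.Agent.W351.ER
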