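import Pool.Agent.W351.ER.AlW

/-!
Facts on pp and be.
-/

set_option autoImplicit false

namespace Pool.Agent.W351.ER

open Finset Pool.Agent.W477.ER

theorem pp_succ (q n : ℕ) : pp q (n + 1) = pp q n + q ^ n := by
  unfold pp
  rw [sum_range_succ]

theorem pp_zero (q : ℕ) : pp q 0 = 0 := by simp [pp]

theorem pp_one (q : ℕ) : pp q 1 = 1 := by simp [pp]

theorem pp_mul (q n : ℕ) (hq : 2 ≤ q) : (q - 1) * pp q n + 1 = q ^ n := by
  obtain ⟨p, rfl⟩ : ∃ p, q = p + 1 := ⟨q - 1, by omega⟩
  rw [Nat.add_sub_cancel]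
  induction n with
  | zero => simp [pp_zero]
  | succ n ih =>
    rw [pp_succ]
    have h1 : p * (pp (p + 1) n + (p + 1) ^ n) + 1 =
        (p * pp (p + 1) n + 1) + p * (p + 1) ^ n := by ring
    rw [h1, ih]
    ring

theorem pp_mono (q m n : ℕ) (h : m ≤ n) : pp q m ≤ pp q n := by
  unfold pp
  exact sum_le_sum_of_subset (range_mono h)

theorem ppBasic : PpBasic := by
  refine ⟨pp_zero, pp_one, pp_succ, ?_, pp_mul, pp_mono⟩
  intro q n
  induction n with
  | zero => simp [pp_zero, pp_one]
  | succ n ih =>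
    conv_rhs => rw [pp_succ q n]
    rw [pp_succ q (n + 1), ih]
    ring

theorem dl_block (q n t : ℕ) (hq : 2 ≤ q) (hn : 1 ≤ n) (ht : t < q ^ n) :
    dl q (pp q n + t) = 1 + ds q t := by
  have h1 : 1 ≤ pp q n := by
    have := pp_mono q 1 n hn
    rw [pp_one] at this
    exact this
  unfold dl
  rw [if_neg (by omega)]
  have h2 : (q - 1) * (pp q n + t) + 1 = q ^ n + (q - 1) * t := by
    rw [Nat.mul_add, ← pp_mul q n hq]
    ring
  have h3 : Nat.log q ((q - 1) * (pp q n + t) + 1) = n := by
    rw [h2]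
    apply Nat.log_eq_of_pow_le_of_lt_pow
    · omega
    · obtain ⟨p, rfl⟩ : ∃ p, q = p + 1 := ⟨q - 1, by omega⟩
      rw [Nat.add_sub_cancel]
      have h4 : p * t < p * (p + 1) ^ n := Nat.mul_lt_mul_of_pos_left ht (by omega)
      calc (p + 1) ^ n + p * t < (p + 1) ^ n + p * (p + 1) ^ n := by omega
        _ = (p + 1) ^ (n + 1) := by ring
  rw [h3, Nat.add_sub_cancel_left]

theorem dl_zero (q : ℕ) : dl q 0 = 0 := by simp [dl]

theorem dl_pos (q k : ℕ) (hk : k ≠ 0) : 1 ≤ dl q k := by
  unfold dl
  rw [if_neg hk]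
  omega

theorem dl_small (q k : ℕ) (hq : 2 ≤ q) (hk : k ≤ q) : dl q k = k := by
  rcases Nat.eq_zero_or_pos k with h | h
  · subst h
    exact dl_zero q
  · have h1 := dl_block q 1 (k - 1) hq le_rfl (by rw [pow_one]; omega)
    rw [pp_one, ds_small q (k - 1) (by omega)] at h1
    have h2 : 1 + (k - 1) = k := by omega
    rw [h2] at h1
    exact h1

theorem be_add (q i e n m : ℕ) : be q i e (n + m) =
    be q i e n + ∑ k ∈ range m, if i + dl q (n + k) ≤ e then 1 else 0 := by
  unfold be
  rw [card_filter, card_filter, sum_range_add]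

theorem beBasic : BeBasic := by
  refine ⟨?_, ?_, ?_, ?_, ?_, ?_, ?_, ?_, ?_⟩
  · intro q i e x y h
    unfold be
    apply card_le_card
    apply filter_subset_filter
    exact range_mono h
  · intro q i j e x h
    unfold be
    apply card_le_card
    intro k hk
    rw [mem_filter] at hk ⊢
    exact ⟨hk.1, by omega⟩
  · intro q i e x
    unfold be
    rw [range_add_one, filter_insert]
    split_ifs
    · exact card_insert_le _ _
    · omega
  · intro q i e x h
    unfold be
    rw [card_eq_zero, filter_eq_empty_iff]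
    intro k _
    omega
  · intro q i e x h
    unfold be
    congr 1
    apply filter_congr
    intro k _
    constructor <;> intro h2 <;> omega
  · intro q i e x h hx
    unfold be
    rw [Nat.one_le_iff_ne_zero, card_ne_zero]
    refine ⟨0, ?_⟩
    rw [mem_filter, mem_range, dl_zero]
    omega
  · intro q e x
    unfold be
    rw [card_le_one]
    intro u hu v hv
    rw [mem_filter] at hu hv
    by_contra hne
    rcases Nat.eq_zero_or_pos u with h | h
    · have := dl_pos q v (by omega)
      omega
    · have := dl_pos q u (by omega)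
      omega
  · intro q i e
    simp [be]
  · intro q i e x hq hx
    unfold be
    have h1 : (range x).filter (fun k => i + dl q k ≤ e) = range (min x (e + 1 - i)) := by
      ext k
      rw [mem_filter, mem_range, mem_range]
      constructor
      · rintro ⟨h1, h2⟩
        rw [dl_small q k hq (by omega)] at h2
        omega
      · intro h1
        refine ⟨by omega, ?_⟩
        rw [dl_small q k hq (by omega)]
        omega
    rw [h1, card_range]

theorem beBlock : BeBlock := by
  intro q i e n x hq hx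
  rw [be_add, al_sum]
  congr 1
  apply sum_congr rfl
  intro k hk
  rw [mem_range] at hk
  rw [dl_block q (n + 1) k hq (by omega) (by omega), ← Nat.add_assoc]

theorem bePP : BePP := by
  intro q i e n hq he
  induction n with
  | zero =>
    rw [Nat.zero_add, pp_one, pow_zero]
    simp [be, al, filter_singleton, dl_zero, ds_zero]
  | succ n ih =>
    rw [pp_succ q (n + 1), beBlock q i e n _ hq le_rfl, ih, ← alPow q i e n hq he]

theorem exists_block (q : ℕ) (hq : 2 ≤ q) (n : ℕ) (hn : 1 ≤ n) :
    ∃ m x : ℕ, x < q ^ (m + 1) ∧ n = pp q (m + 1) + x := by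
  induction n with
  | zero => omega
  | succ n ih =>
    rcases Nat.eq_zero_or_pos n with h | h
    · subst h
      exact ⟨0, 0, by positivity, by rw [Nat.zero_add, pp_one]⟩
    · obtain ⟨m, x, h1, h2⟩ := ih h
      by_cases h3 : x + 1 < q ^ (m + 1)
      · exact ⟨m, x + 1, h3, by omega⟩
      · refine ⟨m + 1, 0, by positivity, ?_⟩
        rw [pp_succ q (m + 1)]
        omega

theorem claimD (hs : AlSub) (q a e s : ℕ) (hq : 2 ≤ q) (he : e < a + q) :
    al q (a + 1) e (s + gg q s) ≤ al q a e s := by
  obtain ⟨b1, b2, b3, b4, b5, b6, b7⟩ := alBasic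
  have hz : gg q s ≤ (s + gg q s) / q := by
    rw [Nat.le_div_iff_mul_le (by omega)]
    have h1 := gg_eq q hq s
    obtain ⟨p, rfl⟩ : ∃ p, q = p + 1 := ⟨q - 1, by omega⟩
    rw [Nat.add_sub_cancel] at h1
    have h3 : gg (p + 1) s * (p + 1) = p * gg (p + 1) s + gg (p + 1) s := by ring
    omega
  have h3 := alDrop q a e (s + gg q s) hq he
  have h4 := b1 q a e _ _ hz
  have h5 := hs q a e s (gg q s) hq
  omega

theorem beShift_of (hs : AlSub) : BeShift := by
  intro q i e n hq he
  rcases Nat.eq_zero_or_pos n with h | h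
  · subst h
    simp [al]
  · obtain ⟨m, x, h1, h2⟩ := exists_block q hq n h
    rw [h2, beBlock q i e m x hq h1.le, bePP q i e m hq he]
    have h3 := hs q (i + 1) e (pp q (m + 1)) x hq
    have h4 : pp q (m + 1) = q ^ m + gg q (q ^ m) := by
      rw [pp_succ, ggBasic.2.2.1 q m hq, Nat.add_comm]
    have h5 := claimD hs q i e (q ^ m) hq he
    rw [← h4] at h5
    omega

theorem beSat : BeSat := by
  intro q i e n x hq hie he hx
  rcases Nat.eq_or_lt_of_le hie with h | h
  · subst h
    rw [alBasic.2.2.2.2.2.2 q i (q ^ (n + 1)) hq (Nat.one_le_pow _ _ (by omega))]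
    exact beBasic.2.2.2.2.2.1 q i i x le_rfl (by omega)
  · have h1 : (e - i) * q ^ n = (e - (i + 1)) * q ^ n + q ^ n := by
      obtain ⟨d, hd⟩ : ∃ d, e = i + 1 + d := ⟨e - (i + 1), by omega⟩
      have h2 : e - i = d + 1 := by omega
      have h3 : e - (i + 1) = d := by omega
      rw [h2, h3]
      ring
    have h2 : pp q (n + 1) + ((e - (i + 1)) * q ^ n + 1) ≤ x := by
      rw [pp_succ]
      omega
    have hle : (e - (i + 1)) * q ^ n + 1 ≤ q ^ (n + 1) := by
      have h3 : (e - (i + 1) + 1) * q ^ n ≤ q * q ^ n := Nat.mul_le_mul_right _ (by omega)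
      have h4 : 1 ≤ q ^ n := Nat.one_le_pow _ _ (by omega)
      have h5 : q ^ (n + 1) = q * q ^ n := by ring
      rw [h5]
      rw [Nat.add_mul] at h3
      omega
    calc al q i e (q ^ (n + 1)) = al q i e (q ^ n) + al q (i + 1) e (q ^ (n + 1)) :=
          alPow q i e n hq he
      _ = be q i e (pp q (n + 1)) + al q (i + 1) e ((e - (i + 1)) * q ^ n + 1) := by
          rw [bePP q i e n hq he, ← alSat q (i + 1) e n _ hq (by omega) (by omega) le_rfl hle]
      _ = be q i e (pp q (n + 1) + ((e - (i + 1)) * q ^ n + 1)) :=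
          (beBlock q i e n _ hq hle).symm
      _ ≤ be q i e x := beBasic.1 q i e _ _ h2

end Pool.Agent.W351.ER
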