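import Pool.Agent.W477.ER.Stm

/-!
The two dimensional Clements-Lindstroem inequality (CL0)
-/

set_option autoImplicit false

namespace Pool.Agent.W351.ER

open Finset Pool.Agent.W477.ER

/-- number of cells of level less than E in the initial segment of size b, rows of length w -/
def ff (w E b : ℕ) : ℕ := ((range b).filter (fun t => t / w + t % w < E)).card

theorem ff_succ (w E b : ℕ) :
    ff w E (b + 1) = ff w E b + (if b / w + b % w < E then 1 else 0) := by
  unfold ff
  rw [range_add_one, filter_insert]
  split_ifs with h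
  · rw [card_insert_of_notMem]
    simp
  · rfl

theorem ff_small (w E b : ℕ) (h : b ≤ w) : ff w E b = min b E := by
  induction b with
  | zero => simp [ff]
  | succ n ih =>
    rw [ff_succ, ih (by omega)]
    have h1 : n / w = 0 := Nat.div_eq_of_lt (by omega)
    have h2 : n % w = n := Nat.mod_eq_of_lt (by omega)
    rw [h1, h2]
    split_ifs <;> omega

theorem ff_add (w E b : ℕ) (hw : 1 ≤ w) : ff w E (w + b) = min w E + ff w (E - 1) b := by
  induction b with
  | zero =>
    rw [Nat.add_zero, ff_small w E w le_rfl]
    simp [ff]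
  | succ n ih =>
    rw [← Nat.add_assoc, ff_succ, ih, ff_succ w (E - 1) n]
    have h1 : (w + n) / w = n / w + 1 := by
      rw [Nat.add_div_left _ (by omega)]
    have h2 : (w + n) % w = n % w := by
      rw [Nat.add_mod_left]
    rw [h1, h2]
    generalize n / w = c
    generalize n % w = d
    split_ifs <;> omega

theorem ff_formula (w : ℕ) (hw : 1 ≤ w) (Q : ℕ) : ∀ E r : ℕ, r ≤ w →
    ff w E (Q * w + r) = (∑ i ∈ range Q, min w (E - i)) + min r (E - Q) := by
  induction Q with
  | zero =>
    intro E r hr
    simp [ff_small w E r hr]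
  | succ n ih =>
    intro E r hr
    have h1 : (n + 1) * w + r = w + (n * w + r) := by ring
    rw [h1, ff_add w E _ hw, ih (E - 1) r hr, sum_range_succ']
    have h2 : ∀ i, E - 1 - i = E - (i + 1) := by intro i; omega
    simp only [h2]
    rw [Nat.sub_zero]
    omega

theorem sum_diff (w E : ℕ) (Q : ℕ) :
    (∑ i ∈ range Q, min (w + 1) (E - i)) = (∑ i ∈ range Q, min w (E - i)) + min Q (E - w) := by
  induction Q with
  | zero => simp
  | succ n ih =>
    rw [sum_range_succ, sum_range_succ, ih]
    omega

theorem ff_mono_step (w E b : ℕ) (hw : 1 ≤ w) (hb : b ≤ w * w) : ff (w + 1) E b ≤ ff w E b := by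
  obtain ⟨Q, R, hR, hQ⟩ : ∃ Q R : ℕ, R < w + 1 ∧ b = Q * (w + 1) + R := by
    refine ⟨b / (w + 1), b % (w + 1), Nat.mod_lt _ (by omega), ?_⟩
    rw [Nat.mul_comm]
    exact (Nat.div_add_mod b (w + 1)).symm
  have hQw : Q + 1 ≤ w := by
    by_contra hcon
    have h1 : w ≤ Q := by omega
    have h2 : w * (w + 1) ≤ Q * (w + 1) := Nat.mul_le_mul_right _ h1
    nlinarith
  rw [hQ, ff_formula (w + 1) (by omega) Q E R (by omega), sum_diff]
  by_cases hc : Q + R ≤ w
  · have h1 : Q * (w + 1) + R = Q * w + (Q + R) := by ring
    rw [h1, ff_formula w hw Q E (Q + R) hc]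
    omega
  · have h1 : Q * (w + 1) + R = (Q + 1) * w + (Q + R - w) := by
      have : Q + R = w + (Q + R - w) := by omega
      calc Q * (w + 1) + R = Q * w + (Q + R) := by ring
        _ = Q * w + (w + (Q + R - w)) := by rw [← this]
        _ = (Q + 1) * w + (Q + R - w) := by ring
    rw [h1, ff_formula w hw (Q + 1) E (Q + R - w) (by omega), sum_range_succ]
    omega

/-- the number of cells of a set in the N x N box -/
noncomputable def cnt (N : ℕ) (P : ℕ → ℕ → Prop) : ℕ :=
  open Classical in ∑ i ∈ range N, ∑ t ∈ range N, if P i t then 1 else 0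

theorem cnt_swap (N : ℕ) (P : ℕ → ℕ → Prop) : cnt N (fun i t => P t i) = cnt N P := by
  unfold cnt
  rw [sum_comm]

theorem cnt_zero (N : ℕ) (P : ℕ → ℕ → Prop) (h : ∀ i t, ¬ P i t) : cnt N P = 0 := by
  unfold cnt
  simp [h]

theorem row_count (N w : ℕ) (P : ℕ → Prop) [DecidablePred P] (hw : w ≤ N)
    (h : ∀ t, P t ↔ t < w) : (∑ t ∈ range N, if P t then 1 else 0) = w := by
  have h1 : (∑ t ∈ range N, if P t then 1 else 0) = ∑ t ∈ range N, if t < w then 1 else 0 := by
    apply sum_congr rfl
    intro t _
    by_cases hc : t < w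
    · rw [if_pos hc, if_pos ((h t).mpr hc)]
    · rw [if_neg hc, if_neg (fun h2 => hc ((h t).mp h2))]
  rw [h1, ← card_filter]
  have h2 : (range N).filter (fun t => t < w) = range w := by
    ext t
    simp only [mem_filter, mem_range]
    omega
  rw [h2, card_range]

theorem cnt_row (N w : ℕ) (P : ℕ → ℕ → Prop) (hw : w ≤ N) (h0 : ∀ t, P 0 t ↔ t < w)
    (hN : ∀ t, ¬ P N t) : cnt N P = w + cnt N (fun i t => P (i + 1) t) := by
  classical
  have e1 : (∑ i ∈ range (N + 1), ∑ t ∈ range N, if P i t then 1 else 0) = cnt N P := by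
    rw [sum_range_succ]
    have h2 : (∑ t ∈ range N, if P N t then 1 else 0) = 0 := by
      simp [hN]
    rw [h2, Nat.add_zero]
    unfold cnt
    congr
  have e2 : (∑ i ∈ range (N + 1), ∑ t ∈ range N, if P i t then 1 else 0) =
      cnt N (fun i t => P (i + 1) t) + w := by
    rw [sum_range_succ', row_count N w (P 0) hw h0]
    unfold cnt
    congr
  rw [← e1, e2, Nat.add_comm]

theorem cnt_le (N w : ℕ) (P : ℕ → ℕ → Prop)
    (h : ∀ i t, P i t → i < w ∧ t < w) : cnt N P ≤ w * w := by
  classical
  have h1 : cnt N P = (((range N) ×ˢ (range N)).filter (fun p => P p.1 p.2)).card := by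
    rw [card_filter, sum_product]
    unfold cnt
    congr
  rw [h1]
  have h2 : (((range N) ×ˢ (range N)).filter (fun p => P p.1 p.2)) ⊆ (range w) ×ˢ (range w) := by
    intro p hp
    rw [mem_filter] at hp
    have := h p.1 p.2 hp.2
    rw [mem_product, mem_range, mem_range]
    exact this
  calc _ ≤ ((range w) ×ˢ (range w)).card := card_le_card h2
    _ = w * w := by rw [card_product, card_range]

theorem main (N : ℕ) : ∀ n w E : ℕ, ∀ P : ℕ → ℕ → Prop, cnt N P + w ≤ n → w ≤ N →
    (∀ i t i' t', P i t → i' ≤ i → t' ≤ t → P i' t') →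
    (∀ i t, P i t → i < w ∧ t < w) →
    ff w E (cnt N P) ≤ cnt N (fun i t => P i t ∧ i + t < E) := by
  intro n
  induction n with
  | zero =>
    intro w E P h1 h2 h3 h4
    have : cnt N P = 0 := by omega
    rw [this]
    simp [ff]
  | succ n ih =>
    intro w E P h1 h2 h3 h4
    rcases Nat.eq_zero_or_pos w with hw | hw
    · have : cnt N P = 0 := by
        apply cnt_zero
        intro i t hP
        have := h4 i t hP
        omega
      rw [this]
      simp [ff]
    -- the case of a full first row
    have key : ∀ P : ℕ → ℕ → Prop, cnt N P + w ≤ n + 1 →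
        (∀ i t i' t', P i t → i' ≤ i → t' ≤ t → P i' t') →
        (∀ i t, P i t → i < w ∧ t < w) → P 0 (w - 1) →
        ff w E (cnt N P) ≤ cnt N (fun i t => P i t ∧ i + t < E) := by
      intro P h1 h3 h4 h5
      have hr : ∀ t, P 0 t ↔ t < w := by
        intro t
        constructor
        · intro h
          exact (h4 0 t h).2
        · intro h
          exact h3 0 (w - 1) 0 t h5 le_rfl (by omega)
      have hN : ∀ t, ¬ P N t := by
        intro t h
        have := (h4 N t h).1
        omega
      have e1 := cnt_row N w P h2 hr hN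
      have e2 := cnt_row N (min w E) (fun i t => P i t ∧ i + t < E) (by omega)
        (by
          intro t
          rw [hr t]
          omega)
        (by
          intro t h
          exact hN t h.1)
      have e3 := ih w (E - 1) (fun i t => P (i + 1) t) (by omega) h2
        (by
          intro i t i' t' hh hi ht
          exact h3 (i + 1) t (i' + 1) t' hh (by omega) ht)
        (by
          intro i t hh
          have := h4 (i + 1) t hh
          omega)
      have e4 : cnt N (fun i t => P (i + 1) t ∧ i + t < E - 1) =
          cnt N (fun i t => P (i + 1) t ∧ i + 1 + t < E) := by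
        congr 1
        funext i t
        apply propext
        constructor
        · rintro ⟨a, b⟩
          exact ⟨a, by omega⟩
        · rintro ⟨a, b⟩
          exact ⟨a, by omega⟩
      rw [e1, ff_add w E _ hw, e2]
      omega
    by_cases hc1 : P 0 (w - 1)
    · exact key P h1 h3 h4 hc1
    by_cases hc2 : P (w - 1) 0
    · have e1 := key (fun i t => P t i) (by rw [cnt_swap]; exact h1)
        (by
          intro i t i' t' hh hi ht
          exact h3 t i t' i' hh ht hi)
        (by
          intro i t hh
          have := h4 t i hh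
          exact ⟨this.2, this.1⟩) hc2
      rw [cnt_swap] at e1
      have e2 : cnt N (fun i t => P t i ∧ i + t < E) = cnt N (fun i t => P i t ∧ i + t < E) := by
        rw [← cnt_swap N (fun i t => P i t ∧ i + t < E)]
        congr 1
        funext i t
        rw [Nat.add_comm]
      rw [e2] at e1
      exact e1
    · have hbox : ∀ i t, P i t → i < w - 1 ∧ t < w - 1 := by
        intro i t hh
        have := h4 i t hh
        refine ⟨?_, ?_⟩
        · by_contra hcon
          have h5 : i = w - 1 := by omega
          subst h5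
          exact hc2 (h3 (w - 1) t (w - 1) 0 hh le_rfl (Nat.zero_le _))
        · by_contra hcon
          have h5 : t = w - 1 := by omega
          subst h5
          exact hc1 (h3 i (w - 1) 0 (w - 1) hh (Nat.zero_le _) le_rfl)
      have e1 := ih (w - 1) E P (by omega) (by omega) h3 hbox
      refine le_trans ?_ e1
      rcases Nat.eq_zero_or_pos (w - 1) with h6 | h6
      · have : cnt N P = 0 := by
          apply cnt_zero
          intro i t hP
          have := hbox i t hP
          omega
        rw [this]
        simp [ff]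
      · have h7 := ff_mono_step (w - 1) E (cnt N P) h6 (cnt_le N (w - 1) P hbox)
        have h8 : w - 1 + 1 = w := by omega
        rw [h8] at h7
        exact h7

theorem cl0 : CL0 := by
  intro k1 k2 e x hk hx hx0
  have hxk : ∀ i, x i ≤ k2 := fun i => le_trans (hx (Nat.zero_le i)) hx0
  have h1 := main k2 (cnt k2 (fun i t => i < k1 ∧ t < x i) + k2) k2 (e + 1)
    (fun i t => i < k1 ∧ t < x i) le_rfl le_rfl
    (by
      intro i t i' t' hh hi ht
      refine ⟨by omega, ?_⟩
      exact lt_of_le_of_lt ht (lt_of_lt_of_le hh.2 (hx hi)))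
    (by
      intro i t hh
      exact ⟨by omega, lt_of_lt_of_le hh.2 (hxk i)⟩)
  have h2 : cnt k2 (fun i t => i < k1 ∧ t < x i) = ∑ i ∈ range k1, x i := by
    unfold cnt
    refine (sum_subset (range_mono hk) ?_).symm.trans ?_
    rotate_left
    · apply sum_congr rfl
      intro i hi
      rw [mem_range] at hi
      refine @row_count k2 (x i) (fun t => i < k1 ∧ t < x i) (fun _ => Classical.propDecidable _)
        (hxk i) ?_
      intro t
      exact ⟨fun h => h.2, fun h => ⟨hi, h⟩⟩
    · intro i _ hi
      rw [mem_range] at hi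
      apply sum_eq_zero
      intro t _
      rw [if_neg]
      exact fun h => hi h.1
  have h3 : cnt k2 (fun i t => (i < k1 ∧ t < x i) ∧ i + t < e + 1) =
      ∑ i ∈ range k1, ((range (x i)).filter (fun t => i + t ≤ e)).card := by
    unfold cnt
    refine (sum_subset (range_mono hk) ?_).symm.trans ?_
    rotate_left
    · apply sum_congr rfl
      intro i hi
      rw [mem_range] at hi
      have h4 : (∑ t ∈ range k2, @ite ℕ ((i < k1 ∧ t < x i) ∧ i + t < e + 1)
          (Classical.propDecidable _) 1 0) = (@filter ℕ (fun t => (i < k1 ∧ t < x i) ∧ i + t < e + 1)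
            (fun _ => Classical.propDecidable _) (range k2)).card :=
        (@card_filter ℕ (fun t => (i < k1 ∧ t < x i) ∧ i + t < e + 1)
          (fun _ => Classical.propDecidable _) (range k2)).symm
      refine h4.trans ?_
      congr 1
      ext t
      simp only [mem_filter, mem_range]
      constructor
      · rintro ⟨_, ⟨_, h5⟩, h6⟩
        exact ⟨h5, by omega⟩
      · rintro ⟨h5, h6⟩
        exact ⟨lt_of_lt_of_le h5 (hxk i), ⟨hi, h5⟩, by omega⟩
    · intro i _ hi
      rw [mem_range] at hi
      apply sum_eq_zero
      intro t _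
      rw [if_neg]
      exact fun h => hi h.1.1
  rw [h2, h3] at h1
  refine le_trans (le_of_eq ?_) h1
  unfold ff
  congr 1
  ext t
  simp only [mem_filter, mem_range, Nat.lt_succ_iff]

end Pool.Agent.W351.ER
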