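import Pool.Agent.W477.ER.Stm

/-!
Consequences of the Clements-Lindstroem inequality and basic facts on al.
-/

set_option autoImplicit false

namespace Pool.Agent.W351.ER

open Finset Pool.Agent.W477.ER

theorem ds_zero (q : ℕ) : ds q 0 = 0 := by simp [ds]

theorem ds_pos (q k : ℕ) (hk : k ≠ 0) : ds q k ≠ 0 := by
  intro h
  apply hk
  unfold ds at h
  have h1 : Nat.ofDigits q (Nat.digits q k) = 0 := by
    rw [List.sum_eq_zero_iff] at h
    have h2 : ∀ L : List ℕ, (∀ x ∈ L, x = 0) → Nat.ofDigits q L = 0 := by
      intro L
      induction L with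
      | nil => intro _; rfl
      | cons a l ih =>
        intro hL
        rw [Nat.ofDigits_cons, ih (fun x hx => hL x (List.mem_cons_of_mem _ hx)),
          hL a List.mem_cons_self]
        simp
    exact h2 _ h
  rw [Nat.ofDigits_digits] at h1
  exact h1

theorem ds_split (q n a b : ℕ) (hq : 2 ≤ q) (hb : b < q ^ n) :
    ds q (q ^ n * a + b) = ds q a + ds q b := by
  rcases Nat.eq_zero_or_pos a with ha | ha
  · subst ha
    simp [ds]
  · have hl : (Nat.digits q b).length ≤ n := by
      rw [Nat.digits_length_le_iff (by omega)]
      exact hb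
    have h1 := Nat.digits_append_zeroes_append_digits (b := q) (n := b) (m := a)
      (k := n - (Nat.digits q b).length) (by omega) ha
    have h2 : (Nat.digits q b).length + (n - (Nat.digits q b).length) = n := by omega
    rw [h2] at h1
    unfold ds
    rw [Nat.add_comm (q ^ n * a) b, ← h1, List.sum_append, List.sum_append]
    simp
    omega

theorem ds_small (q c : ℕ) (hc : c < q) : ds q c = c := by
  rcases Nat.eq_zero_or_pos c with h | h
  · subst h
    exact ds_zero q
  · unfold ds
    rw [Nat.digits_of_lt q c (by omega) hc]
    simp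

theorem alBasic : AlBasic := by
  refine ⟨?_, ?_, ?_, ?_, ?_, ?_, ?_⟩
  · intro q a e x y h
    unfold al
    apply card_le_card
    apply filter_subset_filter
    exact range_mono h
  · intro q a b e x h
    unfold al
    apply card_le_card
    intro k hk
    rw [mem_filter] at hk ⊢
    exact ⟨hk.1, by omega⟩
  · intro q a e x
    unfold al
    rw [range_add_one, filter_insert]
    split_ifs
    · exact card_insert_le _ _
    · omega
  · intro q a e x h
    unfold al
    rw [card_eq_zero, filter_eq_empty_iff]
    intro k _
    omega
  · intro q a e x h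
    unfold al
    congr 1
    apply filter_congr
    intro k _
    constructor <;> intro h2 <;> omega
  · intro q a e x h hx
    unfold al
    rw [Nat.one_le_iff_ne_zero, card_ne_zero]
    refine ⟨0, ?_⟩
    rw [mem_filter, mem_range, ds_zero]
    omega
  · intro q e x hq hx
    unfold al
    rw [card_eq_one]
    refine ⟨0, ?_⟩
    ext k
    rw [mem_filter, mem_range, mem_singleton]
    constructor
    · rintro ⟨_, h2⟩
      by_contra h3
      have := ds_pos q k h3
      omega
    · intro h
      subst h
      rw [ds_zero]
      omega

theorem lay_of (hCL : CL) : LAY := by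
  intro q R a e x hq hR hx
  obtain ⟨b1, b2, b3, b4, b5, b6, b7⟩ := alBasic
  by_cases hae : e < a
  · rw [b4 q a e _ hae]
    exact Nat.zero_le _
  have hae' : a ≤ e := by omega
  obtain ⟨n, hn⟩ : ∃ n : ℕ, x 0 ≤ q * q ^ n := by
    refine ⟨x 0, ?_⟩
    have h1 : x 0 < q ^ (x 0) := Nat.lt_pow_self (by omega)
    have h2 : q ^ (x 0) ≤ q * q ^ (x 0) := Nat.le_mul_of_pos_left _ (by omega)
    omega
  have hanti : Antitone (fun i => if i < R then x i else 0) := by
    intro i j hij
    simp only
    split_ifs with h1 h2
    · exact hx hij
    · omega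
    · exact Nat.zero_le _
    · exact le_rfl
  have h0 := hCL q n q q (e - a) (fun i => if i < R then x i else 0) hq le_rfl le_rfl hanti
    (by
      show (if 0 < R then x 0 else 0) ≤ q * q ^ n
      split_ifs
      · exact hn
      · exact Nat.zero_le _)
  have h1 : (∑ i ∈ range q, if i < R then x i else 0) = ∑ i ∈ range R, x i := by
    rw [← sum_subset (range_mono hR)]
    · apply sum_congr rfl
      intro i hi
      rw [mem_range] at hi
      rw [if_pos hi]
    · intro i _ hi
      rw [mem_range] at hi
      rw [if_neg hi]
  have h2 : (∑ i ∈ range q, al q i (e - a) (if i < R then x i else 0)) =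
      ∑ i ∈ range R, al q (a + i) e (x i) := by
    rw [← sum_subset (range_mono hR)]
    · apply sum_congr rfl
      intro i hi
      rw [mem_range] at hi
      rw [if_pos hi]
      unfold al
      congr 1
      apply filter_congr
      intro k _
      constructor <;> intro h2 <;> omega
    · intro i _ hi
      rw [mem_range] at hi
      rw [if_neg hi]
      simp [al]
  rw [h1, h2] at h0
  refine le_trans (le_of_eq ?_) h0
  rw [b5 q a e _ hae']
  unfold al
  congr 1
  apply filter_congr
  intro t ht
  rw [mem_range] at ht
  have h3 : ∑ i ∈ range R, x i ≤ R * (q * q ^ n) := by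
    calc ∑ i ∈ range R, x i ≤ ∑ i ∈ range R, (q * q ^ n) := by
          apply sum_le_sum
          intro i _
          exact le_trans (hx (Nat.zero_le i)) hn
      _ = R * (q * q ^ n) := by rw [sum_const, card_range, smul_eq_mul]
  have hpos : 0 < q * q ^ n := by positivity
  have h4 : t / (q * q ^ n) < q := by
    rw [Nat.div_lt_iff_lt_mul hpos]
    calc t < _ := ht
      _ ≤ _ := h3
      _ ≤ q * (q * q ^ n) := Nat.mul_le_mul_right _ hR
  have h5 : ds q t = t / (q * q ^ n) + ds q (t % (q * q ^ n)) := by
    conv_lhs => rw [← Nat.div_add_mod t (q * q ^ n)]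
    have h6 : q * q ^ n = q ^ (n + 1) := by ring
    have h7 : t % (q ^ (n + 1)) < q ^ (n + 1) := Nat.mod_lt _ (by positivity)
    rw [h6, ds_split q (n + 1) _ _ hq h7]
    rw [h6] at h4
    rw [ds_small q _ h4]
  rw [h5, Nat.zero_add]

theorem alL2_of (h : LAY) : AlL2 := by
  intro q a e x y hq hxy
  have h1 := h q 2 a e (fun i => if i = 0 then x else if i = 1 then y else 0) hq hq (by
    intro i j hij
    simp only
    split_ifs <;> omega)
  simpa [sum_range_succ] using h1

theorem alSub_of (h : AlL2) (hb : AlBasic) : AlSub := by
  intro q a e x y hq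
  rcases le_total y x with h1 | h1
  · have h2 := h q a e x y hq h1
    have h3 := hb.2.1 q a (a + 1) e y (by omega)
    omega
  · have h2 := h q a e y x hq h1
    have h3 := hb.2.1 q a (a + 1) e x (by omega)
    rw [Nat.add_comm x y]
    omega

end Pool.Agent.W351.ER
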