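import Pool.Agent.W351.ER.Be

/-!
Lemma U.
-/

set_option autoImplicit false

namespace Pool.Agent.W351.ER

open Finset Pool.Agent.W477.ER

theorem xx_upper (q l e n : ℕ) (hq : 2 ≤ q) (he : 1 ≤ e) (hn : n ≤ e * q ^ l + pp q l) :
    xx q n ≤ e * q ^ l := by
  unfold xx
  by_cases h : l + 1 ≤ Nat.log q ((q - 1) * n + 1)
  · have h1 := pp_mono q l (Nat.log q ((q - 1) * n + 1) - 1) (by omega)
    have h2 := min_le_left (n - pp q (Nat.log q ((q - 1) * n + 1) - 1))
      (q ^ (Nat.log q ((q - 1) * n + 1)))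
    omega
  · have h2 := min_le_right (n - pp q (Nat.log q ((q - 1) * n + 1) - 1))
      (q ^ (Nat.log q ((q - 1) * n + 1)))
    have h3 : q ^ (Nat.log q ((q - 1) * n + 1)) ≤ q ^ l :=
      Nat.pow_le_pow_right (by omega) (by omega)
    have h4 : 1 * q ^ l ≤ e * q ^ l := Nat.mul_le_mul_right _ he
    omega

theorem al_offset (q i j d n : ℕ) (h : i ≤ d) : al q (i + j) d n = al q j (d - i) n := by
  unfold al
  congr 1
  apply filter_congr
  intro k _
  constructor <;> intro h2 <;> omega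

theorem u_of (hL : LemA) (hX : BeX1) (hXx : XxBasic) (hC : BeCan) : U := by
  classical
  intro q d l v r N w n hP hR hv hex
  obtain ⟨hq, hd, hv1, hvd, hr1, hr2, hN⟩ := hP
  obtain ⟨hanti, hw, hsum⟩ := hR
  obtain ⟨i0, ⟨hi0v, hi0n⟩, hmin⟩ : ∃ i0, (i0 < v ∧ n i0 ≤ (d - i0) * q ^ l + pp q l) ∧
      ∀ i, i < i0 → ¬ (i < v ∧ n i ≤ (d - i) * q ^ l + pp q l) :=
    ⟨Nat.find hex, Nat.find_spec hex, fun i hi => Nat.find_min hex hi⟩
  obtain ⟨x1, x2, x3, x4, x5, x6, x7, x8, x9, x10⟩ := hXx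
  obtain ⟨R, hR⟩ : ∃ R, q = i0 + R := ⟨q - i0, by omega⟩
  obtain ⟨c, hc⟩ : ∃ c, v = i0 + (1 + c) := ⟨v - 1 - i0, by omega⟩
  -- lower rows
  have hlow : ∑ i ∈ range i0, al q i d (q ^ (l + 1)) ≤ ∑ i ∈ range i0, be q i d (n i) := by
    apply sum_le_sum
    intro i hi
    rw [mem_range] at hi
    have h1 := hmin i hi
    exact beSat q i d l (n i) hq (by omega) (by omega) (by omega)
  -- the rows x
  have hpow : q ^ (l + 1) = q * q ^ l := by ring
  have hx4 : ∀ j, n (i0 + j) ≤ xx q (n (i0 + j)) + pp q l := by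
    intro j
    apply x8 q _ l hq
    have h1 : n (i0 + j) ≤ n i0 := hanti (Nat.le_add_right _ _)
    have h2 : (d - i0) * q ^ l ≤ q * q ^ l := Nat.mul_le_mul_right _ (by omega)
    rw [hpow]
    omega
  have hsplit : ∑ i ∈ range q, n i = ∑ i ∈ range i0, n i + ∑ j ∈ range R, n (i0 + j) := by
    rw [hR, sum_range_add]
  have hhead : ∑ i ∈ range i0, n i ≤ i0 * pp q (l + 2) := by
    rcases hv with h | h
    · have : i0 = 0 := by omega
      subst this
      simp
    · calc ∑ i ∈ range i0, n i ≤ ∑ i ∈ range i0, pp q (l + 2) := by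
            apply sum_le_sum
            intro i _
            exact le_trans (hanti (Nat.zero_le i)) h
        _ = i0 * pp q (l + 2) := by rw [sum_const, card_range, smul_eq_mul]
  have htail : ∑ j ∈ range R, n (i0 + j) ≤ (∑ j ∈ range R, xx q (n (i0 + j))) + R * pp q l := by
    calc ∑ j ∈ range R, n (i0 + j) ≤ ∑ j ∈ range R, (xx q (n (i0 + j)) + pp q l) :=
          sum_le_sum (fun j _ => hx4 j)
      _ = _ := by rw [sum_add_distrib, sum_const, card_range, smul_eq_mul]
  have hA := hL q R (d - i0) l (c * q ^ (l + 1) + r) (fun j => xx q (n (i0 + j))) hq (by omega)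
    (by omega)
    (by
      intro a b hab
      exact x1 q _ _ hq (hanti (by omega)))
    (xx_upper q l (d - i0) (n i0) hq (by omega) hi0n)
    (by
      have e1 : pp q (l + 2) = pp q l + q ^ l + q ^ (l + 1) := by
        rw [pp_succ, pp_succ]
      have e2 : pp q (l + 1) = pp q l + q ^ l := pp_succ q l
      have e3 : q * (pp q l + q ^ l) + 1 = pp q l + q ^ l + q ^ (l + 1) := by
        rw [← e2, ← ppBasic.2.2.2.1 q (l + 1), pp_succ q (l + 1)]
      rw [e1] at hhead
      rw [hc, e2] at hN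
      have e4 : (i0 + R) * (pp q l + q ^ l) + 1 = pp q l + q ^ l + q ^ (l + 1) := by
        rw [← hR]
        exact e3
      nlinarith)
  have hB : al q i0 d (q ^ (l + 1)) + al q (i0 + 1) d (c * q ^ (l + 1) + r) ≤
      ∑ j ∈ range R, be q (i0 + j) d (n (i0 + j)) := by
    rw [al_offset q i0 1 d _ (by omega)]
    have h1 := al_offset q i0 0 d (q ^ (l + 1)) (by omega)
    rw [Nat.add_zero] at h1
    rw [h1]
    refine le_trans hA ?_
    apply sum_le_sum
    intro j _
    rw [← al_offset q i0 j d _ (by omega)]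
    exact hX q (i0 + j) d (n (i0 + j)) hq (by omega)
  have hrq : r ≤ q ^ (l + 1) := by
    rw [hpow]
    have h3 : (d - v + 1) * q ^ l ≤ q * q ^ l := Nat.mul_le_mul_right _ (by omega)
    have h4 : 1 ≤ q ^ l := Nat.one_le_pow _ _ (by omega)
    rw [Nat.add_mul] at h3
    omega
  have hS := alSplit q (i0 + 1) d (l + 1) c r hq (by omega) hrq
  have hbe := (hC q d l v r hq hd hv1 hvd hr2).2
  rw [← hN] at hbe
  have hsum1 : ∑ i ∈ range v, al q i d (q ^ (l + 1)) =
      ∑ i ∈ range i0, al q i d (q ^ (l + 1)) + (al q i0 d (q ^ (l + 1)) +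
        ∑ i ∈ range c, al q (i0 + 1 + i) d (q ^ (l + 1))) := by
    rw [hc, sum_range_add, sum_range_add, sum_range_one, Nat.add_zero]
    congr 2
    apply sum_congr rfl
    intro i _
    rw [Nat.add_assoc]
  have hsum2 : ∑ i ∈ range q, be q i d (n i) =
      ∑ i ∈ range i0, be q i d (n i) + ∑ j ∈ range R, be q (i0 + j) d (n (i0 + j)) := by
    conv_lhs => rw [show range q = range (i0 + R) from by rw [hR]]
    rw [sum_range_add]
  have hv2 : i0 + 1 + c = v := by omega
  rw [hv2] at hS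
  rw [hbe, hsum1, hsum2]
  omega

end Pool.Agent.W351.ER
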